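import Pool.Agent.J6H16.PR.Fr

/-!
# `n² + k²` with exactly `r` prime factors (`r ≥ 3`), for almost all `k`, with `n` up to any power of `k`

For almost all `k ≤ K`, and for all lengths `N` between `K ^ (1 + ε)` and `K ^ E` (`E` is arbitrary), there are at least
`c (φ(k) / k) N / log N` integers `n ≤ N` such that `n² + k²` is the product of exactly `r` different primes, all larger than
`N ^ c`. Here `r ≥ 3` is any fixed number.

Proof (`Pool.Agent.J6H16.PR`, on top of `Pool.Agent.J6H16.PF`, `Pool.Agent.J6H16.TH` and of the project GN). Let `L = K` and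
`M = 2 N`. We count the `z = l + i n = a m v` (`l ≤ L`) with Gaussian integers `a`, `m`, `v` such that `N(a)` is a prime in a
short interval of small exponents, `N(m)` is a prime, `N(v)` is a product of `r - 2` primes with
`M ^ (1 - θ) < N(v) < M ^ (1 - δ)`. The dispersion estimate `S_TG2` bounds bilinear forms in the products `w v` with
`Re (w v) = l` whose coefficients `β(w)` have a small mean square over the angular frequencies in all classes to small moduli. We
use it for `w = a m` and the difference between the primes `m` and a multiple of the indicator of the Gaussian integers `m`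
without small prime factors (smaller than `exp (log M / (log log M) ^ 3)`); these are counted in classes by the fundamental lemma
in `ℤ[i]`. The form with the rough numbers `m` is then evaluated, for each `l`, by the fundamental lemma in one variable `n`.
-/

set_option autoImplicit false

namespace Pool.Agent.Results.MP_7169d5_nt.ExactlyRPrimes

open Finset Filter Topology

/-- The number of the integers `1 ≤ n ≤ N` for which `n² + k²` is the product of exactly `r` different primes, all larger than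
`y`. -/
noncomputable def count (r : ℕ) (y : ℝ) (k : ℕ) (N : ℝ) : ℕ :=
  {n : ℕ | 1 ≤ n ∧ (n : ℝ) ≤ N ∧ Squarefree (n ^ 2 + k ^ 2) ∧ (n ^ 2 + k ^ 2).primeFactors.card = r ∧
    ∀ p ∈ (n ^ 2 + k ^ 2).primeFactors, y < (p : ℝ)}.ncard

/-- The conclusion for `k`: for all real `N` from `K ^ (1 + ε)` to `K ^ E` there are at least `c (φ(k) / k) N / log N` integers
`n ≤ N` for which `n² + k²` is the product of exactly `r` different primes, all larger than `N ^ c`. -/
def Good (r : ℕ) (c ε E K : ℝ) (k : ℕ) : Prop :=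
  ∀ N : ℝ, K ^ (1 + ε) ≤ N → N ≤ K ^ E → c * ((Nat.totient k : ℝ) / k) * (N / Real.log N) ≤ count r (N ^ c) k N

open Classical in
/-- The number of the `1 ≤ k ≤ K` for which the conclusion fails. -/
noncomputable def exceptions (r : ℕ) (c ε E K : ℝ) : ℕ :=
  ((Icc 1 ⌊K⌋₊).filter (fun k => ¬ Good r c ε E K k)).card

theorem nn_eq (k n : ℕ) : Pool.Agent.J6H16.PF.nn (⟨(k : ℤ), (n : ℤ)⟩ : Pool.Agent.N782.GN.ZI) = n ^ 2 + k ^ 2 := by
  unfold Pool.Agent.J6H16.PF.nn
  rw [Zsqrtd.norm_def]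
  have : ((k : ℤ) * k - -1 * n * n : ℤ) = ((n ^ 2 + k ^ 2 : ℕ) : ℤ) := by
    push_cast
    ring
  rw [this, Int.natAbs_natCast]

theorem fr_eq {k : ℕ} (hk : 1 ≤ k) : Pool.Agent.J6H16.PR.fr k = (Nat.totient k : ℝ) / k := by
  unfold Pool.Agent.J6H16.PR.fr
  have h1 := Nat.totient_eq_mul_prod_factors k
  have h2 : (Nat.totient k : ℝ) = (k : ℝ) * ∏ p ∈ k.primeFactors, (1 - (p : ℝ)⁻¹) := by
    have h4 := congrArg (fun x : ℚ => (x : ℝ)) h1
    push_cast at h4
    exact h4
  have h3 : (k : ℝ) ≠ 0 := by exact_mod_cast (by omega : k ≠ 0)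
  rw [h2, mul_div_assoc, mul_comm, div_mul_cancel₀ _ h3]
  refine prod_congr rfl fun p _ => ?_
  rw [one_div]

open Classical in
theorem count_ge (r : ℕ) (y : ℝ) (k : ℕ) (N : ℝ) (hN : 0 ≤ N) :
    (((Icc (1 : ℤ) ⌊N⌋).filter (fun m : ℤ => Pool.Agent.J6H16.PR.Good r y (⟨(k : ℤ), m⟩ : Pool.Agent.N782.GN.ZI))).card : ℝ) ≤
      count r y k N := by
  have h1 : {n : ℕ | 1 ≤ n ∧ (n : ℝ) ≤ N ∧ Squarefree (n ^ 2 + k ^ 2) ∧ (n ^ 2 + k ^ 2).primeFactors.card = r ∧
    ∀ p ∈ (n ^ 2 + k ^ 2).primeFactors, y < (p : ℝ)} =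
      (((Icc 1 ⌊N⌋₊).filter (fun n => Squarefree (n ^ 2 + k ^ 2) ∧ (n ^ 2 + k ^ 2).primeFactors.card = r ∧
    ∀ p ∈ (n ^ 2 + k ^ 2).primeFactors, y < (p : ℝ)) : Finset ℕ) : Set ℕ) := by
    ext n
    simp only [Set.mem_ofPred_eq, coe_filter, mem_Icc]
    rw [Nat.le_floor_iff hN, and_assoc]
  unfold count
  rw [h1, Set.ncard_coe_finset]
  have h2 : (Icc (1 : ℤ) ⌊N⌋).filter (fun m : ℤ => Pool.Agent.J6H16.PR.Good r y (⟨(k : ℤ), m⟩ : Pool.Agent.N782.GN.ZI)) ⊆
      ((Icc 1 ⌊N⌋₊).filter (fun n => Squarefree (n ^ 2 + k ^ 2) ∧ (n ^ 2 + k ^ 2).primeFactors.card = r ∧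
    ∀ p ∈ (n ^ 2 + k ^ 2).primeFactors, y < (p : ℝ))).image (fun n : ℕ => (n : ℤ)) := by
    intro m hm
    rw [mem_filter, mem_Icc] at hm
    obtain ⟨⟨h3, h4⟩, h5⟩ := hm
    rw [mem_image]
    obtain ⟨n, rfl⟩ := Int.eq_ofNat_of_zero_le (by omega : 0 ≤ m)
    refine ⟨n, ?_, rfl⟩
    rw [mem_filter, mem_Icc]
    refine ⟨⟨by omega, ?_⟩, ?_⟩
    · rw [Nat.le_floor_iff hN]
      have := Int.le_floor.1 h4
      exact_mod_cast this
    · unfold Pool.Agent.J6H16.PR.Good at h5
      rw [nn_eq] at h5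
      exact h5
  have h3 := (card_le_card h2).trans card_image_le
  exact_mod_cast h3

open Classical in
/-- **For all `r ≥ 3`, `ε > 0` and `E` there is `c > 0` such that for all `A` and all large `K`, for all but at most
`K / (log K) ^ A` of the `k ≤ K`, there are at least `c (φ(k) / k) N / log N` integers `n ≤ N` such that `n² + k²` is the product
of exactly `r` different primes, all larger than `N ^ c`, for all `K ^ (1 + ε) ≤ N ≤ K ^ E`.** -/
theorem result (r : ℕ) (hr : 3 ≤ r) (ε E : ℝ) (hε : 0 < ε) : ∃ c : ℝ, 0 < c ∧ ∀ A : ℕ, ∃ K₀ : ℝ, ∀ K : ℝ, K₀ ≤ K →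
    (exceptions r c ε E K : ℝ) ≤ K / Real.log K ^ A := by
  obtain ⟨j, rfl⟩ : ∃ j, r = j + 3 := ⟨r - 3, by omega⟩
  obtain ⟨c, hc, h⟩ := Pool.Agent.J6H16.PR.fin_r j ε E hε
  refine ⟨c, hc, fun A => ?_⟩
  obtain ⟨K₁, hK₁⟩ := eventually_atTop.1 (h A)
  refine ⟨max K₁ 1, fun K hK => ?_⟩
  have hK1 : 1 ≤ K := (le_max_right _ _).trans hK
  have hK0 : 0 < K := by linarith
  refine le_trans ?_ (hK₁ K ((le_max_left _ _).trans hK))
  unfold exceptions
  have hsub : ((Icc 1 ⌊K⌋₊).filter (fun k => ¬ Good (j + 3) c ε E K k)).image (fun k : ℕ => (k : ℤ)) ⊆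
      (Icc (1 : ℤ) ⌊K⌋).filter (fun l => ¬ ∀ N : ℝ, K ^ (1 + ε) ≤ N → N ≤ K ^ E →
        c * Pool.Agent.J6H16.PR.fr l.natAbs * (N / Real.log N) ≤ (((Icc (1 : ℤ) ⌊N⌋).filter (fun n : ℤ =>
          Pool.Agent.J6H16.PR.Good (j + 3) (N ^ c) (⟨l, n⟩ : Pool.Agent.N782.GN.ZI))).card : ℝ)) := by
    intro l hl
    rw [mem_image] at hl
    obtain ⟨k, hk, rfl⟩ := hl
    rw [mem_filter, mem_Icc] at hk
    rw [mem_filter, mem_Icc]
    refine ⟨⟨by omega, ?_⟩, ?_⟩
    · rw [Int.le_floor]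
      have := (Nat.le_floor_iff hK0.le).1 hk.1.2
      exact_mod_cast this
    · intro hcon
      apply hk.2
      intro N hN1 hN2
      have hN0 : 0 ≤ N := le_trans (by positivity) hN1
      have h1 := hcon N hN1 hN2
      rw [Int.natAbs_natCast, fr_eq hk.1.1] at h1
      exact h1.trans (count_ge (j + 3) (N ^ c) k N hN0)
  have h1 := card_le_card hsub
  rw [card_image_of_injective _ (fun a b h => by exact_mod_cast h)] at h1
  exact_mod_cast h1

end Pool.Agent.Results.MP_7169d5_nt.ExactlyRPrimes
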