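import Mathlib
import Pool.Agent.J6H17.QP.Exact

/-!
# Infinite exact patterns of almost prime values of quadratic polynomials

Let `Q = A x ^ 2 + B x + C` be a quadratic polynomial with integer coefficients whose discriminant is not a
square, for example `x ^ 2 + 1`. Let `F` be ANY infinite set of linear forms
`a x + b`, `a ≥ 1`, such that the polynomials `Q (a x + b)` have no fixed prime divisor. Then `F` has an infinite
subset `G` which is an exact pattern for the values of `Q` with at most three prime factors: for every finite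
set `T` of linear forms with slopes `≥ 1` (whether they belong to `F` or not) there are infinitely many integers
`x` for which the forms `a x + b` in `T` such that `Q (a x + b)` is a product of at most three primes
(counted with multiplicity, all of them at least `x ^ (9 / 50)`) are exactly the forms in `G ∩ T`.

The special case `translates` below: every infinite set `S` of integers has an infinite subset `G` such that for
every `R` there are infinitely many `x` with the property: for all integers `y` with `|y| ≤ R` the number
`(x + y) ^ 2 + 1` has at most three prime factors if and only if `y ∈ G`. With primes instead of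
numbers with at most three prime factors this would be a strong form of the conjecture that `x ^ 2 + 1` is
a prime infinitely often. The cluster theorems of the starting files (`Clusters` in the folder MP_484c84_nt,
`SystemClusters` in the folder MP_7169d5_nt) find, in every sufficiently large finite set `S`, for each scale a
subset with `m` elements.

The integers `x` are found in short intervals: for an arbitrary sequence of nonempty finite sets `NN k` of
scales with minima tending to infinity, for infinitely many `k` and for a positive proportion of the elements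
`N` of `NN k` the interval `(N, N + N ^ (3 / 4)]` contains `≫ N ^ (3 / 4) / (log N) ^ D` such integers. With
`NN k = {N_k}` one has infinitely many elements of any prescribed sequence of scales, with
`NN k = {k + 1, …, 2 k + 2}` a set of scales of positive upper density.

The proof (`Pool.Agent.J6H17.QP`). (1) `Mains` … `Block`: a form of Maynard's sieve for the values of a
quadratic polynomial at linear forms, with weights adapted to almost primes (weighted sieve of dimension one
for each form, based on the sieve library of the starting files, `Pool.Agent.R498.MT`), in which the forms are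
divided in blocks and each of the blocks contains with weight at least `δ` a form with an almost prime
value; the total weight is at most `2`, for arbitrarily many blocks. (2) `Meas`: the weights are averaged over the
scales and the number of the blocks tends to infinity along ultrafilters; the result is a finitely additive
measure on the sets of natural numbers for which each block has measure at least `δ`; a set of positive measure
has many elements in many short intervals, and contains elements for which the finitely many
forms of `T` not in the sequence have values with many prime factors. (3) `Exact`: the combinatorial argument of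
`Pool.Agent.H361R2.Inf` (starting files, for primes) gives a pattern all of whose finite parts have positive
measure.
-/

set_option autoImplicit false

namespace Pool.Agent.Results.MP_7169d5_nt.ExactInfinitePatterns

open Filter

/-- the value of `A X ^ 2 + B X + C` at `X = g.1 * x + g.2` -/
def val (A B C : ℤ) (g : ℤ × ℤ) (x : ℤ) : ℤ := A * (g.1 * x + g.2) ^ 2 + B * (g.1 * x + g.2) + C

/-- no prime divides the values at all integers `x` -/
def NoFixedPrime (A B C : ℤ) (g : ℤ × ℤ) : Prop :=
  ∀ p : ℕ, p.Prime → ∃ x : ℤ, ¬ (p : ℤ) ∣ val A B C g x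

/-- `m` is not `0` and has at most `s` prime factors, counted with multiplicity, all of them at least `w` -/
def AlmostPrime (s : ℕ) (w : ℝ) (m : ℤ) : Prop :=
  m ≠ 0 ∧ m.natAbs.primeFactorsList.length ≤ s ∧ ∀ p : ℕ, p.Prime → (p : ℤ) ∣ m → w ≤ p

/-- the number of the elements of `S` in the interval `(N, N + N ^ (3 / 4)]` -/
noncomputable def short (S : Set ℕ) (N : ℕ) : ℕ :=
  {x : ℕ | x ∈ S ∧ N < x ∧ (x : ℝ) ≤ N + (N : ℝ) ^ (3 / 4 : ℝ)}.ncard

open Classical in
/-- for some `c > 0` and `D` and infinitely many `k`, at least `c |NN k|` of the `N` in the set `NN k` have the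
property: the interval `(N, N + N ^ (3 / 4)]` contains at least `c N ^ (3 / 4) / (log N) ^ D` elements of `S` -/
def Often (NN : ℕ → Finset ℕ) (S : Set ℕ) : Prop :=
  ∃ (c : ℝ) (D : ℕ), 0 < c ∧ {k : ℕ | c * ((NN k).card : ℝ) ≤
    (((NN k).filter (fun N : ℕ => c * (N : ℝ) ^ (3 / 4 : ℝ) ≤
      (short S N : ℝ) * Real.log N ^ D)).card : ℝ)}.Infinite

/-- **Infinite exact patterns for quadratic polynomials.**  Let `B ^ 2 - 4 A C` not be a square, let `F` be
an infinite set of linear forms of slope `≥ 1` without fixed prime divisors of the values of the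
polynomial `A X ^ 2 + B X + C`, `s ≥ 3`, `θ ≤ 9 / 50`, and let `NN k` be nonempty finite sets of natural numbers
whose minima tend to infinity. Then there is an infinite subset `G` of `F` such that for every finite set `T` of
linear forms of slope `≥ 1` the set of the `x` for which the forms in `T` whose value is a product of at most `s`
primes, all of them at least `x ^ θ`, are exactly the elements of `G ∩ T`, has many elements often. -/
theorem result (A B C : ℤ) (hΔ : ¬ IsSquare (B ^ 2 - 4 * A * C)) (F : Set (ℤ × ℤ))
    (hF : F.Infinite) (hF1 : ∀ g ∈ F, 1 ≤ g.1 ∧ NoFixedPrime A B C g) (s : ℕ) (hs : 3 ≤ s) (θ : ℝ)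
    (hθ : θ ≤ 9 / 50) (NN : ℕ → Finset ℕ) (hN1 : ∀ k, (NN k).Nonempty)
    (hN2 : ∀ b, ∃ k₀, ∀ k, k₀ ≤ k → ∀ N ∈ NN k, b ≤ N) :
    ∃ G ⊆ F, G.Infinite ∧ ∀ T : Finset (ℤ × ℤ), (∀ g ∈ T, 1 ≤ g.1) →
      Often NN {x : ℕ | ∀ g ∈ T, (AlmostPrime s ((x : ℝ) ^ θ) (val A B C g x) ↔ g ∈ G)} := by
  have hA : A ≠ 0 := by
    rintro rfl
    exact hΔ ⟨B, by ring⟩
  obtain ⟨G, hGF, hG, h⟩ := Pool.Agent.J6H17.QP.exact_inf A B C hA hΔ F hF hF1 s hs θ hθ NN hN1
    (fun b => by
      obtain ⟨k₀, hk⟩ := hN2 b
      exact eventually_atTop.2 ⟨k₀, hk⟩)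
  refine ⟨G, hGF, hG, fun T hT => ?_⟩
  obtain ⟨ε, -, hO⟩ := h T hT
  obtain ⟨c, D, hc, hf⟩ := hO.mono (S' := {x : ℕ | ∀ g ∈ T,
      (AlmostPrime s ((x : ℝ) ^ θ) (val A B C g x) ↔ g ∈ G)}) (by
    intro x hx g hg
    rw [← (hx g hg).1]
    have hne : val A B C g x ≠ 0 :=
      Pool.Agent.J6H17.QP.Gq_ne_zero A B C hΔ (g.1 * (x : ℤ) + g.2)
    exact ⟨fun h => ⟨h.2.1, h.2.2⟩, fun h => ⟨hne, h.1, h.2⟩⟩)
  exact ⟨c, D, hc, Nat.frequently_atTop_iff_infinite.1 hf⟩

/-- a set which has many elements often is infinite -/
theorem Often.infinite {S : Set ℕ} (h : Often (fun k => {k}) S) : S.Infinite := by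
  classical
  obtain ⟨c, D, hc, h⟩ := h
  rw [Set.infinite_iff_exists_gt]
  intro b
  obtain ⟨k, hk, hbk⟩ := h.exists_gt b
  have hk' : c * (((({k} : Finset ℕ)).card : ℕ) : ℝ) ≤
    (((({k} : Finset ℕ)).filter (fun N : ℕ => c * (N : ℝ) ^ (3 / 4 : ℝ) ≤
      (short S N : ℝ) * Real.log N ^ D)).card : ℝ) := hk
  rw [Finset.card_singleton, Nat.cast_one, mul_one] at hk'
  have h1 : 0 < (((({k} : Finset ℕ)).filter (fun N : ℕ => c * (N : ℝ) ^ (3 / 4 : ℝ) ≤
      (short S N : ℝ) * Real.log N ^ D)).card) := by
    have : (0 : ℝ) < (((({k} : Finset ℕ)).filter (fun N : ℕ => c * (N : ℝ) ^ (3 / 4 : ℝ) ≤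
      (short S N : ℝ) * Real.log N ^ D)).card : ℝ) := lt_of_lt_of_le hc hk'
    exact_mod_cast this
  obtain ⟨N, hN⟩ := Finset.card_pos.1 h1
  rw [Finset.mem_filter, Finset.mem_singleton] at hN
  obtain ⟨rfl, hN⟩ := hN
  have hN0 : (0 : ℝ) < (N : ℝ) := by
    have : 0 < N := by omega
    exact_mod_cast this
  have h2 : short S N ≠ 0 := by
    intro h0
    rw [h0, Nat.cast_zero, zero_mul] at hN
    have : 0 < c * (N : ℝ) ^ (3 / 4 : ℝ) := by positivity
    linarith
  obtain ⟨x, hx⟩ := Set.nonempty_of_ncard_ne_zero h2
  exact ⟨x, hx.1, by have := hx.2.1; omega⟩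

/-- **The case of translates of `x ^ 2 + 1`** (a special case of `result`). Every infinite set `S` of integers has
an infinite subset `G` such that, for every `R`, there are infinitely many `x` such that for all integers
`|y| ≤ R` the number `(x + y) ^ 2 + 1` has at most three prime factors if and only if `y ∈ G`. -/
theorem translates (S : Set ℤ) (hS : S.Infinite) :
    ∃ G ⊆ S, G.Infinite ∧ ∀ R : ℕ, {x : ℕ | ∀ y : ℤ, |y| ≤ R →
      ((((x : ℤ) + y) ^ 2 + 1).natAbs.primeFactorsList.length ≤ 3 ↔ y ∈ G)}.Infinite := by
  obtain ⟨G, hGF, hG, h⟩ := result 1 0 1 (by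
      rintro ⟨r, hr⟩
      nlinarith [mul_self_nonneg r]) ((fun y : ℤ => ((1 : ℤ), y)) '' S)
    (hS.image (fun a _ b _ hab => (Prod.ext_iff.1 hab).2)) (by
      rintro _ ⟨y, -, rfl⟩
      refine ⟨le_rfl, fun p hp => ?_⟩
      refine ⟨-y, fun hd => hp.one_lt.ne' ?_⟩
      have e : val 1 0 1 (1, y) (-y) = 1 := by simp [val]
      rw [e] at hd
      have := Int.eq_one_of_dvd_one (by positivity) hd
      exact_mod_cast this) 3 le_rfl 0 (by norm_num) (fun k => {k})
    (fun k => Finset.singleton_nonempty k)
    (fun b => ⟨b, fun k hk N hN => by rw [Finset.mem_singleton] at hN; omega⟩)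
  refine ⟨{y | ((1 : ℤ), y) ∈ G}, ?_, ?_, fun R => ?_⟩
  · intro y hy
    obtain ⟨y', hy', he⟩ := hGF hy
    have h1 : y' = y := (Prod.ext_iff.1 he).2
    rwa [← h1]
  · intro hfin
    apply hG
    refine (hfin.image (fun y : ℤ => ((1 : ℤ), y))).subset ?_
    intro g hg
    obtain ⟨y, hy, rfl⟩ := hGF hg
    exact ⟨y, hg, rfl⟩
  · refine (h ((Finset.Icc (-(R : ℤ)) R).image (fun y : ℤ => ((1 : ℤ), y))) (by
      intro g hg
      obtain ⟨y, -, rfl⟩ := Finset.mem_image.1 hg
      exact le_rfl)).infinite.mono ?_
    intro x hx y hy
    have h1 := hx (1, y) (Finset.mem_image_of_mem _ (Finset.mem_Icc.2 (abs_le.1 hy)))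
    rw [Set.mem_ofPred_eq, ← h1]
    have e : val 1 0 1 (1, y) x = ((x : ℤ) + y) ^ 2 + 1 := by simp [val]
    rw [e]
    constructor
    · intro h2
      refine ⟨by positivity, h2, fun p hp _ => ?_⟩
      rw [Real.rpow_zero]
      exact_mod_cast hp.one_lt.le
    · exact fun h2 => h2.2.1

end Pool.Agent.Results.MP_7169d5_nt.ExactInfinitePatterns
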