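import Pool.Agent.J6H29.GT.FinR
import Pool.Agent.J6H29.GT.FinT

/-!
# Arithmetic progressions of `n` with `n² + k²` prime, for almost all `k`: Gaussian primes on almost all horizontal lines

For almost all `k ≤ K` (all but `K / (log K) ^ A`, for every `A`) and all `K ^ (1 + ε) ≤ N ≤ K ^ (2 - ε)` every subset of positive
relative density of the set of the `n ≤ N` for which `n² + k²` is prime contains arithmetic progressions of any given length,
whose common difference is at most a power of `log N`; so the Gaussian primes on almost all lines `Im z = k` satisfy the theorems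
of Green and Tao (with narrow progressions, as in the theorem of Tao and Ziegler). The same holds for the `n ≤ N` for which
`n² + k²` is the product of exactly `r ≥ 2` different primes, all larger than `N ^ c`, and then `N` may be as large as
`K ^ (3 - ε)` for `r = 2`, and as any fixed power of `K` for `r ≥ 3` (in this last case for `φ(k) / k` bounded from below).

Both follow from a theorem for all `k` (part 3), the relative Szemerédi theorem of the starting files (`Pool.Agent.K3h89.SX`, on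
top of `Pool.Agent.Y727.PSP`) for the function `x² + k²`, uniformly in `k` up to a power of the length of the interval. The
common prime factors of `x² + k²` and `(x + h)² + k²` divide `h` or `h² + 4 k²`; as `k` is large compared with `log N`, the numbers
`h² + 4 k²` have many prime factors for some `h ≤ (log N) ^ B`; the large ones are removed from the sieve, and the small ones are
few for most `h` (moments; the roots of the congruences `y² + 4 k² = 0` are first put together by the Chinese remainder theorem).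
The lower bounds for the number of the `n` are the theorems `ThinFamilySquareShifts`, `TwoPrimeFormula` and `ExactlyRPrimes`.
-/

set_option autoImplicit false

open Finset Filter Topology

namespace Pool.Agent.Results.MP_7169d5_nt.ProgressionsOnAlmostAllLines

/-- The `1 ≤ n ≤ N` for which `n² + k²` is prime (for `k = 1`: the primes `n² + 1`). -/
def PrimeValues (k : ℕ) (N : ℝ) : Set ℕ := {n : ℕ | 1 ≤ n ∧ (n : ℝ) ≤ N ∧ (n ^ 2 + k ^ 2).Prime}

/-- The `1 ≤ n ≤ N` for which `n² + k²` is the product of exactly `r` different primes, all larger than `y`. -/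
def ExactValues (r : ℕ) (y : ℝ) (k : ℕ) (N : ℝ) : Set ℕ :=
  {n : ℕ | 1 ≤ n ∧ (n : ℝ) ≤ N ∧ Squarefree (n ^ 2 + k ^ 2) ∧ (n ^ 2 + k ^ 2).primeFactors.card = r ∧
    ∀ p ∈ (n ^ 2 + k ^ 2).primeFactors, y < (p : ℝ)}

/-- `T` contains an arithmetic progression of length `l` with common difference at most `D`. -/
def HasProgression (l : ℕ) (D : ℝ) (T : Set ℕ) : Prop :=
  ∃ a d : ℕ, 1 ≤ d ∧ (d : ℝ) ≤ D ∧ ∀ i < l, a + i * d ∈ T

/-- Every subset of `S` with at least `η |S|` elements contains a progression of length `l` with difference at most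
`D`. -/
def Szemeredi (l : ℕ) (D η : ℝ) (S : Set ℕ) : Prop :=
  ∀ T ⊆ S, η * (S.ncard : ℝ) ≤ T.ncard → HasProgression l D T

/-- The elements of `S` that are in no progression of length `l` with difference at most `D` in `S`. -/
def Isolated (l : ℕ) (D : ℝ) (S : Set ℕ) : Set ℕ :=
  {n ∈ S | ¬ ∃ a d : ℕ, 1 ≤ d ∧ (d : ℝ) ≤ D ∧ (∃ i < l, n = a + i * d) ∧ ∀ i < l, a + i * d ∈ S}

/-- The conclusion for the primes: for all `K ^ (1 + ε) ≤ N ≤ K ^ (2 - ε)` there are at least `c (φ(k) / k) N / log N` of the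
`n ≤ N` with `n² + k²` prime, every subset with a proportion `η` of them contains a progression of length `l` with difference at
most `(log N) ^ B`, and all but a proportion `η` of them are in such progressions. -/
def GoodPrimes (c η ε K : ℝ) (l B k : ℕ) : Prop :=
  ∀ N : ℝ, K ^ (1 + ε) ≤ N → N ≤ K ^ (2 - ε) →
    c * ((Nat.totient k : ℝ) / k) * (N / Real.log N) ≤ (PrimeValues k N).ncard ∧
    Szemeredi l (Real.log N ^ B) η (PrimeValues k N) ∧
    ((Isolated l (Real.log N ^ B) (PrimeValues k N)).ncard : ℝ) ≤ η * (PrimeValues k N).ncard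

/-- The same for the products of exactly `r` primes `> N ^ c`, for all `K ^ (1 + ε) ≤ N ≤ K ^ E`; the statements on the
progressions are for all `k` if `r = 2`, and for `k ≤ M φ(k)` if `r ≥ 3`. -/
def GoodExact (r : ℕ) (c η ε E M K : ℝ) (l B k : ℕ) : Prop :=
  ∀ N : ℝ, K ^ (1 + ε) ≤ N → N ≤ K ^ E →
    c * ((Nat.totient k : ℝ) / k) * (N / Real.log N) ≤ (ExactValues r (N ^ c) k N).ncard ∧
    (r = 2 ∨ (k : ℝ) ≤ M * Nat.totient k →
      Szemeredi l (Real.log N ^ B) η (ExactValues r (N ^ c) k N) ∧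
      ((Isolated l (Real.log N ^ B) (ExactValues r (N ^ c) k N)).ncard : ℝ) ≤ η * (ExactValues r (N ^ c) k N).ncard)

/-- The number of the residue classes `x` modulo `p` with `p ∣ x² + k²`. -/
def roots (k p : ℕ) : ℕ := ((range p).filter (fun x => p ∣ x ^ 2 + k ^ 2)).card

open Classical in
/-- The number of the `1 ≤ k ≤ K` without the property `P`. -/
noncomputable def exceptions (K : ℝ) (P : ℕ → Prop) : ℕ := ((Icc 1 ⌊K⌋₊).filter (fun k => ¬ P k)).card

theorem primeValues_eq (k : ℕ) (N : ℝ) (hN : 0 ≤ N) :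
    PrimeValues k N = ((Pool.Agent.J6H29.GT.SP k N : Finset ℕ) : Set ℕ) := by
  ext n
  unfold PrimeValues Pool.Agent.J6H29.GT.SP
  simp only [Set.mem_ofPred_eq, coe_filter, mem_Icc]
  rw [Nat.le_floor_iff hN, and_assoc]

theorem exactValues_eq (r : ℕ) (y : ℝ) (k : ℕ) (N : ℝ) (hN : 0 ≤ N) :
    ExactValues r y k N = ((Pool.Agent.J6H29.GT.SR r y k N : Finset ℕ) : Set ℕ) := by
  classical
  ext n
  unfold ExactValues Pool.Agent.J6H29.GT.SR
  simp only [Set.mem_ofPred_eq, coe_filter, mem_Icc]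
  rw [Nat.le_floor_iff hN, and_assoc]

theorem szemeredi_of {l : ℕ} {D η : ℝ} {S : Finset ℕ}
    (h : ∀ T ⊆ S, η * S.card ≤ T.card → Pool.Agent.J6H29.GT.HasAP l D T) :
    Szemeredi l D η (S : Set ℕ) := by
  classical
  intro T hT hc
  have hfin : T.Finite := (Finset.finite_toSet S).subset hT
  obtain ⟨T', hT'⟩ : ∃ T' : Finset ℕ, (T' : Set ℕ) = T := ⟨hfin.toFinset, hfin.coe_toFinset⟩
  subst hT'
  rw [Set.ncard_coe_finset, Set.ncard_coe_finset] at hc
  obtain ⟨a, d, h1, h2, h3⟩ := h T' (by exact_mod_cast hT) hc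
  exact ⟨a, d, h1, h2, fun i hi => by exact_mod_cast h3 i hi⟩

theorem isolated_le {l : ℕ} (hl : 1 ≤ l) {D η : ℝ} {S : Set ℕ} (h : Szemeredi l D η S) :
    ((Isolated l D S).ncard : ℝ) ≤ η * S.ncard := by
  by_contra hcon
  push Not at hcon
  obtain ⟨a, d, h1, h2, h3⟩ := h (Isolated l D S) (fun n hn => hn.1) hcon.le
  have h4 := (h3 0 (by omega)).2
  apply h4
  exact ⟨a, d, h1, h2, ⟨0, by omega, rfl⟩, fun i hi => (h3 i hi).1⟩

open Classical in
/-- **Arithmetic progressions in the sets of the `n` with `n² + k²` prime, or with exactly `r ≥ 2` prime factors, for almost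
all `k`, and in dense sets of `n` with `n² + k²` free of small prime factors, for all `k`.** -/
theorem result :
    -- (1) primes
    (∀ (ε η : ℝ) (l : ℕ), 0 < ε → 0 < η → 1 ≤ l → ∃ c : ℝ, 0 < c ∧ ∃ B : ℕ, ∀ A : ℕ, ∃ K₀ : ℝ, ∀ K : ℝ, K₀ ≤ K →
      (exceptions K (GoodPrimes c η ε K l B) : ℝ) ≤ K / Real.log K ^ A) ∧
    -- (2) exactly `r` prime factors
    (∀ (r : ℕ) (ε E M : ℝ), (r = 2 ∧ E = 3 - ε) ∨ 3 ≤ r → 0 < ε → ∃ c : ℝ, 0 < c ∧ ∀ (η : ℝ) (l : ℕ), 0 < η → 1 ≤ l →
      ∃ B : ℕ, ∀ A : ℕ, ∃ K₀ : ℝ, ∀ K : ℝ, K₀ ≤ K →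
        (exceptions K (GoodExact r c η ε E M K l B) : ℝ) ≤ K / Real.log K ^ A) ∧
    -- (3) all `k`
    (∀ (l C : ℕ) (δ κ : ℝ), 0 < δ → 0 < κ → ∃ B H₀ : ℕ, ∀ (k Y H : ℕ) (T : Finset ℕ),
      H₀ ≤ H → 1 ≤ k → k ≤ H ^ C → Y ≤ H ^ C → T ⊆ Ioc Y (Y + H) →
      (∀ n ∈ T, ∀ p : ℕ, p.Prime → (p : ℝ) ≤ (H : ℝ) ^ δ → ¬ p ∣ n ^ 2 + k ^ 2) →
      κ * H * ∏ p ∈ (Icc 1 H).filter Nat.Prime, (1 - (roots k p : ℝ) / p) ≤ T.card →
      HasProgression l (Real.log H ^ B) (T : Set ℕ)) := by
  refine ⟨fun ε η l hε hη hl => ?_, fun r ε E M hr hε => ?_, fun l C δ κ hδ hκ => ?_⟩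
  · obtain ⟨c, hc, B, h⟩ := Pool.Agent.J6H29.GT.part1 ε η l hε hη
    refine ⟨c, hc, B, fun A => ?_⟩
    obtain ⟨K₀, hK₀⟩ := h A
    refine ⟨max K₀ 1, fun K hK => ?_⟩
    have hK0 : 0 < K := lt_of_lt_of_le one_pos ((le_max_right _ _).trans hK)
    obtain ⟨E, hE1, hE2⟩ := hK₀ K ((le_max_left _ _).trans hK)
    refine le_trans ?_ hE1
    unfold exceptions
    rw [Nat.cast_le]
    apply card_le_card
    intro k hk
    rw [mem_filter] at hk
    by_contra hkE
    apply hk.2
    intro N hN1 hN2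
    have hN0 : 0 ≤ N := (Real.rpow_nonneg hK0.le _).trans hN1
    obtain ⟨g1, g2⟩ := hE2 k hk.1 hkE N hN1 hN2
    have g3 := szemeredi_of g2
    rw [primeValues_eq k N hN0]
    refine ⟨?_, g3, isolated_le hl g3⟩
    rw [Set.ncard_coe_finset]
    exact g1
  · rcases hr with ⟨rfl, rfl⟩ | hr
    · obtain ⟨c, hc, h⟩ := Pool.Agent.J6H29.GT.part1b ε hε
      refine ⟨c, hc, fun η l hη hl => ?_⟩
      obtain ⟨B, h⟩ := h η l hη
      refine ⟨B, fun A => ?_⟩
      obtain ⟨K₀, hK₀⟩ := h A
      refine ⟨max K₀ 1, fun K hK => ?_⟩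
      have hK0 : 0 < K := lt_of_lt_of_le one_pos ((le_max_right _ _).trans hK)
      obtain ⟨X, hE1, hE2⟩ := hK₀ K ((le_max_left _ _).trans hK)
      refine le_trans ?_ hE1
      unfold exceptions
      rw [Nat.cast_le]
      apply card_le_card
      intro k hk
      rw [mem_filter] at hk
      by_contra hkE
      apply hk.2
      intro N hN1 hN2
      have hN0 : 0 ≤ N := (Real.rpow_nonneg hK0.le _).trans hN1
      obtain ⟨g1, g2⟩ := hE2 k hk.1 hkE N hN1 hN2
      rw [exactValues_eq 2 (N ^ c) k N hN0]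
      refine ⟨?_, fun _ => ?_⟩
      · rw [Set.ncard_coe_finset]
        exact g1
      · have g3 := szemeredi_of g2
        exact ⟨g3, isolated_le hl g3⟩
    obtain ⟨c, hc, h⟩ := Pool.Agent.J6H29.GT.part2 r hr ε E M hε
    refine ⟨c, hc, fun η l hη hl => ?_⟩
    obtain ⟨B, h⟩ := h η l hη
    refine ⟨B, fun A => ?_⟩
    obtain ⟨K₀, hK₀⟩ := h A
    refine ⟨max K₀ 1, fun K hK => ?_⟩
    have hK0 : 0 < K := lt_of_lt_of_le one_pos ((le_max_right _ _).trans hK)
    obtain ⟨X, hE1, hE2⟩ := hK₀ K ((le_max_left _ _).trans hK)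
    refine le_trans ?_ hE1
    unfold exceptions
    rw [Nat.cast_le]
    apply card_le_card
    intro k hk
    rw [mem_filter] at hk
    by_contra hkE
    apply hk.2
    intro N hN1 hN2
    have hN0 : 0 ≤ N := (Real.rpow_nonneg hK0.le _).trans hN1
    obtain ⟨g1, g2⟩ := hE2 k hk.1 hkE N hN1 hN2
    rw [exactValues_eq r (N ^ c) k N hN0]
    refine ⟨?_, fun hkM => ?_⟩
    · rw [Set.ncard_coe_finset]
      exact g1
    · have g3 := szemeredi_of (g2 (hkM.resolve_left (by omega)))
      exact ⟨g3, isolated_le hl g3⟩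
  · obtain ⟨B, H₀, h⟩ := Pool.Agent.J6H29.GT.dens l C δ κ hδ hκ
    refine ⟨B, H₀, fun k Y H T h1 h2 h3 h4 h5 h6 h7 => ?_⟩
    obtain ⟨a, d, g1, g2, g3⟩ := h k Y H T h1 h2 h3 h4 h5 h6 (by
      refine le_trans (le_of_eq ?_) h7
      unfold Pool.Agent.Y677.RSZ.V Pool.Agent.TH423.SH.PS Pool.Agent.Y677.RSZ.rt Pool.Agent.J6H29.GT.Gq roots
      rw [← mul_assoc]
      have e1 : (Icc 1 H).filter (fun p => p.Prime ∧ ¬ p ∣ 1) = (Icc 1 H).filter Nat.Prime := by
        apply filter_congr
        intro p _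
        exact ⟨fun h => h.1, fun h => ⟨h, fun hd => h.one_lt.ne' (Nat.dvd_one.1 hd)⟩⟩
      rw [e1]
      congr 1
      refine prod_congr rfl fun p _ => ?_
      congr 3
      apply congrArg
      apply filter_congr
      intro x _
      constructor
      · intro h
        exact_mod_cast h
      · intro h
        exact_mod_cast h)
    exact ⟨a, d, g1, g2, fun i hi => by exact_mod_cast g3 i hi⟩

end Pool.Agent.Results.MP_7169d5_nt.ProgressionsOnAlmostAllLines
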