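import Pool.Agent.J6H16.E3.Cj

/-!
# The numbers `n² + k²` that are products of three primes, for almost all `k ≤ K`, where `n` goes up to any fixed power of `K`: an
asymptotic formula

For almost all `k ≤ K` and uniformly for `K ^ (1 + ε) ≤ N ≤ K ^ E` and for the windows `K ^ δ ≤ y ≤ z ≤ K ^ (ε / (20 E))`,
`N K ^ (ε - 1) ≤ u ≤ v ≤ N K ^ (-ε)` we prove

`∑_{n ≤ N} ∑_{n² + k² = p q r, y < p ≤ z, u < q ≤ v} log p log q log r = C f(k) N log (z / y) log (v / u) + O (N (log K) ^ (-A))`,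

where `p`, `q`, `r` are primes and `C f(k)` is the constant of the conjecture for `n² + k²` (the problem is `k = 1`).

Proof (`Pool.Agent.J6H16.E3`, on top of the projects GN, PF, PR and E2). The sum is one over the products `a m w` of three Gaussian
primes, `y < N(a) ≤ z`, `u < N(w) ≤ v`, in the box `Re = k`, `|Im| ≤ M = N`. The prime `m` is compared with a multiple of the
indicator of the numbers without prime factors up to `exp (log M / (log log M) ^ 3)`. The difference is small in all classes and the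
coefficients `a m` have a small prime factor, so the mean value theorem with the frequencies `arg ^ k` and the dispersion method give
all the powers of the logarithm, on average over `k ≤ K`, for all the cofactors `w` between `N K ^ (ε - 1)` and `N K ^ (-ε)`, also for the
smallest powers `K` of `N`. The comparison sum is evaluated for every single `k` by the fundamental lemma, and the constant comes
out from `L(1, χ) = π / 4`.
-/

set_option autoImplicit false

namespace Pool.Agent.Results.MP_7169d5_nt.ThreePrimeFormula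

open Finset Filter Topology

/-- The partial products of the constant of the problem: over the odd primes `p ≤ z`, the factors `1 - (-1/p) / (p - 1)`. -/
noncomputable def partialC (z : ℕ) : ℝ :=
  ∏ p ∈ (Icc 3 z).filter Nat.Prime, (1 - (-1 : ℝ) ^ ((p - 1) / 2) / ((p : ℝ) - 1))

/-- The factor by which the constant for `n² + k²` differs from that for `n² + 1`: the factors of the product that belong to
the odd primes `p` dividing `k` are taken out. -/
noncomputable def factor (k : ℕ) : ℝ :=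
  ∏ p ∈ k.primeFactors.filter (fun p => p ≠ 2), (1 - (-1 : ℝ) ^ ((p - 1) / 2) / ((p : ℝ) - 1))⁻¹

open Classical in
/-- The sum of `log p log q log r` over the triples `(p, q, r)` of primes with `p q r = m`, `y < p ≤ z`, `u < q ≤ v`. -/
noncomputable def weight (y z u v : ℝ) (m : ℕ) : ℝ :=
  ∑ c ∈ (m.divisors ×ˢ m.divisors ×ˢ m.divisors).filter (fun c : ℕ × ℕ × ℕ => c.1 * c.2.1 * c.2.2 = m ∧
      c.1.Prime ∧ c.2.1.Prime ∧ c.2.2.Prime ∧ (y < (c.1 : ℝ) ∧ (c.1 : ℝ) ≤ z) ∧ (u < (c.2.1 : ℝ) ∧ (c.2.1 : ℝ) ≤ v)),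
    Real.log c.1 * Real.log c.2.1 * Real.log c.2.2

/-- The sum of these weights over the numbers `n² + k²`, `1 ≤ n ≤ N`. -/
noncomputable def total (k : ℕ) (N y z u v : ℝ) : ℝ := ∑ n ∈ Icc 1 ⌊N⌋₊, weight y z u v (n ^ 2 + k ^ 2)

/-- The conclusion for `k`: for all real `N` from `K ^ (1 + ε)` to `K ^ E` and all real `K ^ δ ≤ y ≤ z ≤ K ^ (ε / (20 E))`,
`N K ^ (ε - 1) ≤ u ≤ v ≤ N K ^ (-ε)`,
`|total k N y z u v - C (factor k) N log (z / y) log (v / u)| ≤ N / (log K) ^ A`. -/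
def Good (C ε δ E : ℝ) (A : ℕ) (K : ℝ) (k : ℕ) : Prop :=
  ∀ N y z u v : ℝ, K ^ (1 + ε) ≤ N → N ≤ K ^ E → K ^ δ ≤ y → y ≤ z → z ≤ K ^ (ε / (20 * E)) →
    N * K ^ (ε - 1) ≤ u → u ≤ v → v ≤ N * K ^ (-ε) →
    |total k N y z u v - C * factor k * N * Real.log (z / y) * Real.log (v / u)| ≤ N / Real.log K ^ A

open Classical in
/-- The number of the `1 ≤ k ≤ K` for which the conclusion fails. -/
noncomputable def exceptions (C ε δ E : ℝ) (A : ℕ) (K : ℝ) : ℕ :=
  ((Icc 1 ⌊K⌋₊).filter (fun k => ¬ Good C ε δ E A K k)).card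

/-- The factor of the product that belongs to an odd prime. -/
theorem chi_eq (p : ℕ) (hp : p.Prime) (h3 : 3 ≤ p) :
    ((ZMod.χ₄ (p : ZMod 4) : ℤ) : ℝ) = (-1 : ℝ) ^ ((p - 1) / 2) := by
  have hodd : p % 2 = 1 := hp.eq_two_or_odd.resolve_left (by omega)
  rw [ZMod.χ₄_eq_neg_one_pow hodd]
  have : (p - 1) / 2 = p / 2 := by omega
  rw [this]
  push_cast
  rfl

theorem factor_ne (p : ℕ) (h3 : 3 ≤ p) : (1 - (-1 : ℝ) ^ ((p - 1) / 2) / ((p : ℝ) - 1)) ≠ 0 := by
  have hp : (3 : ℝ) ≤ p := by exact_mod_cast h3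
  rcases neg_one_pow_eq_or ℝ ((p - 1) / 2) with h | h <;> rw [h]
  · have : (1 : ℝ) / ((p : ℝ) - 1) < 1 := by
      rw [div_lt_one (by linarith)]
      linarith
    linarith
  · have : (-1 : ℝ) / ((p : ℝ) - 1) < 0 := div_neg_of_neg_of_pos (by norm_num) (by linarith)
    linarith

theorem pp_one (z : ℕ) : Pool.Agent.N782.GN.pp 1 z = partialC z := by
  unfold Pool.Agent.N782.GN.pp partialC
  have h1 : (Icc 3 z).filter (fun p : ℕ => p.Prime ∧ ¬ (p : ℤ) ∣ 1) = (Icc 3 z).filter Nat.Prime := by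
    apply filter_congr
    intro p hp
    constructor
    · exact fun h => h.1
    · intro h
      refine ⟨h, fun hd => ?_⟩
      have := Int.natAbs_dvd_natAbs.2 hd
      rw [Int.natAbs_natCast, Int.natAbs_one, Nat.dvd_one] at this
      exact h.one_lt.ne' this
  rw [h1]
  refine prod_congr rfl fun p hp => ?_
  rw [mem_filter, mem_Icc] at hp
  rw [chi_eq p hp.2 hp.1.1]

theorem pp_mul (l z : ℕ) (hl : 0 < l) (hz : l ≤ z) : Pool.Agent.N782.GN.pp l z = partialC z * factor l := by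
  unfold Pool.Agent.N782.GN.pp partialC factor
  have h1 : (Icc 3 z).filter Nat.Prime = (Icc 3 z).filter (fun p : ℕ => p.Prime ∧ ¬ (p : ℤ) ∣ (l : ℤ)) ∪
      l.primeFactors.filter (fun p => p ≠ 2) := by
    ext p
    simp only [mem_filter, mem_Icc, mem_union, Nat.mem_primeFactors, Int.natCast_dvd_natCast]
    constructor
    · rintro ⟨⟨h3, hz'⟩, hp⟩
      by_cases hd : p ∣ l
      · exact Or.inr ⟨⟨hp, hd, hl.ne'⟩, by omega⟩
      · exact Or.inl ⟨⟨h3, hz'⟩, hp, hd⟩
    · rintro (⟨⟨h3, hz'⟩, hp, -⟩ | ⟨⟨hp, hd, -⟩, h2⟩)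
      · exact ⟨⟨h3, hz'⟩, hp⟩
      · have := hp.two_le
        exact ⟨⟨by omega, (Nat.le_of_dvd hl hd).trans hz⟩, hp⟩
  have hdis : Disjoint ((Icc 3 z).filter (fun p : ℕ => p.Prime ∧ ¬ (p : ℤ) ∣ (l : ℤ)))
      (l.primeFactors.filter (fun p => p ≠ 2)) := by
    rw [disjoint_left]
    intro p hp hp'
    rw [mem_filter] at hp hp'
    exact hp.2.2 (Int.natCast_dvd_natCast.2 (Nat.dvd_of_mem_primeFactors hp'.1))
  rw [h1, prod_union hdis, mul_assoc, ← prod_mul_distrib]
  have h2 : ∏ p ∈ l.primeFactors.filter (fun p => p ≠ 2), ((1 - (-1 : ℝ) ^ ((p - 1) / 2) / ((p : ℝ) - 1)) *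
      (1 - (-1 : ℝ) ^ ((p - 1) / 2) / ((p : ℝ) - 1))⁻¹) = 1 := by
    apply prod_eq_one
    intro p hp
    rw [mem_filter, Nat.mem_primeFactors] at hp
    have := hp.1.1.two_le
    exact mul_inv_cancel₀ (factor_ne p (by omega))
  rw [h2, mul_one]
  refine prod_congr rfl fun p hp => ?_
  rw [mem_filter, mem_Icc] at hp
  rw [chi_eq p hp.2.1 hp.1.1]

/-- The constant for the denominator `l`. -/
theorem SS_eq (l : ℕ) (hl : 0 < l) : Pool.Agent.N782.GN.SS l = Pool.Agent.N782.GN.SS 1 * factor l := by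
  obtain ⟨h1, -⟩ := Pool.Agent.N782.GN.c_ssl (l : ℤ) (by omega)
  obtain ⟨h2, -⟩ := Pool.Agent.N782.GN.c_ssl 1 (by omega)
  have h3 := h2.mul_const (factor l)
  refine tendsto_nhds_unique (h1.congr' ?_) h3
  filter_upwards [eventually_ge_atTop l] with z hz
  rw [pp_mul l z hl hz, pp_one]

theorem weight_eq (y z u v : ℝ) (m : ℕ) (hm : m ≠ 0) : weight y z u v m = Pool.Agent.J6H16.E3.w3 y z u v m := by
  classical
  unfold weight Pool.Agent.J6H16.E3.w3 Pool.Agent.J6H16.E3.w2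
  simp only [mul_sum]
  rw [sum_sigma']
  symm
  apply Finset.sum_bij (fun (s : (_ : ℕ) × ℕ) _ => (s.1, s.2, m / s.1 / s.2))
  · rintro ⟨p, q⟩ h
    rw [mem_sigma, mem_filter, mem_filter, Nat.mem_primeFactors, Nat.mem_primeFactors] at h
    simp only at h
    obtain ⟨⟨⟨hp, hpm, -⟩, hyp, hpz⟩, ⟨hq, hqm, -⟩, hr, huq, hqv⟩ := h
    have e1 : p * (m / p) = m := Nat.mul_div_cancel' hpm
    have e2 : q * (m / p / q) = m / p := Nat.mul_div_cancel' hqm
    rw [mem_filter, mem_product, mem_product, Nat.mem_divisors, Nat.mem_divisors, Nat.mem_divisors]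
    simp only
    have e3 : p * q * (m / p / q) = m := by rw [mul_assoc, e2, e1]
    refine ⟨⟨⟨hpm, hm⟩, ⟨?_, hm⟩, ⟨?_, hm⟩⟩, e3, hp, hq, hr, ⟨hyp, hpz⟩, ⟨huq, hqv⟩⟩
    · exact ⟨p * (m / p / q), by rw [show q * (p * (m / p / q)) = p * q * (m / p / q) by ring]; exact e3.symm⟩
    · exact ⟨p * q, by rw [mul_comm]; exact e3.symm⟩
  · rintro ⟨p, q⟩ _ ⟨p', q'⟩ _ h
    simp only [Prod.mk.injEq] at h
    obtain ⟨rfl, rfl, -⟩ := h
    rfl
  · rintro ⟨p, q, r⟩ h
    rw [mem_filter] at h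
    simp only at h
    obtain ⟨-, hpqr, hp, hq, hr, ⟨hyp, hpz⟩, huq, hqv⟩ := h
    have e1 : m / p = q * r := by rw [← hpqr, mul_assoc, Nat.mul_div_cancel_left _ hp.pos]
    have e2 : m / p / q = r := by rw [e1, Nat.mul_div_cancel_left _ hq.pos]
    refine ⟨⟨p, q⟩, ?_, by rw [e2]⟩
    rw [mem_sigma, mem_filter, mem_filter, Nat.mem_primeFactors, Nat.mem_primeFactors]
    simp only
    rw [e2, e1]
    refine ⟨⟨⟨hp, ⟨q * r, by rw [← hpqr]; ring⟩, hm⟩, hyp, hpz⟩, ⟨hq, dvd_mul_right _ _, ?_⟩, hr, huq, hqv⟩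
    exact mul_ne_zero hq.ne_zero hr.ne_zero
  · rintro ⟨p, q⟩ _
    simp only
    ring

theorem total_eq (k : ℕ) (N y z u v : ℝ) (hN : 0 ≤ N) (hk : 1 ≤ k) :
    total k N y z u v = Pool.Agent.J6H16.E3.Wt (k : ℤ) N y z u v := by
  unfold total Pool.Agent.J6H16.E3.Wt
  symm
  apply Finset.sum_bij (fun (m : ℤ) _ => m.toNat)
  · intro m hm
    rw [mem_Icc, Int.le_floor] at hm
    rw [mem_Icc]
    refine ⟨by omega, Nat.le_floor ?_⟩
    have h1 : ((m.toNat : ℕ) : ℤ) = m := Int.toNat_of_nonneg (by omega)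
    have h2 : ((m.toNat : ℕ) : ℝ) = (m : ℝ) := by exact_mod_cast h1
    rw [h2]
    exact hm.2
  · intro m hm m' hm' h
    rw [mem_Icc] at hm hm'
    omega
  · intro n hn
    rw [mem_Icc, Nat.le_floor_iff hN] at hn
    refine ⟨(n : ℤ), ?_, Int.toNat_natCast n⟩
    rw [mem_Icc, Int.le_floor]
    exact ⟨by exact_mod_cast hn.1, by exact_mod_cast hn.2⟩
  · intro m hm
    rw [mem_Icc] at hm
    have hne : m.toNat ^ 2 + k ^ 2 ≠ 0 := by positivity
    rw [weight_eq _ _ _ _ _ hne]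
    congr 1
    have h1 : ((m.toNat : ℕ) : ℤ) = m := Int.toNat_of_nonneg (by omega)
    have h2 : (k : ℤ) ^ 2 + m ^ 2 = ((m.toNat ^ 2 + k ^ 2 : ℕ) : ℤ) := by
      push_cast
      rw [h1]
      ring
    rw [h2, Int.natAbs_natCast]

/-- **The formula for the products of three primes among the numbers `n² + k²`, for almost all `k ≤ K`, uniformly for
`K ^ (1 + ε) ≤ N ≤ K ^ E`, `K ^ δ ≤ y ≤ z ≤ K ^ (ε / (20 E))`, `N K ^ (ε - 1) ≤ u ≤ v ≤ N K ^ (-ε)`.** The product `C` of the problem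
converges to a positive number, and for all `ε, δ > 0`, `E ≥ 1`, `A` and all large `K`, all but at most `K / (log K) ^ A` of the integers
`1 ≤ k ≤ K` satisfy `|total k N y z u v - C (factor k) N log (z / y) log (v / u)| ≤ N / (log K) ^ A` for all these `N`, `y`, `z`, `u`,
`v`. -/
theorem result : ∃ C : ℝ, 0 < C ∧ Tendsto partialC atTop (𝓝 C) ∧ ∀ (ε δ E : ℝ) (A : ℕ), 0 < ε → 0 < δ → 1 ≤ E →
    ∃ K₀ : ℝ, ∀ K : ℝ, K₀ ≤ K → (exceptions C ε δ E A K : ℝ) ≤ K / Real.log K ^ A := by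
  classical
  obtain ⟨hC1, hC2⟩ := Pool.Agent.N782.GN.c_ssl 1 (by omega)
  refine ⟨Pool.Agent.N782.GN.SS 1, hC2, hC1.congr fun z => pp_one z, fun ε δ E A hε hδ hE => ?_⟩
  have hE0 : 0 < E := by linarith
  by_cases hε1 : ε ≤ 1
  swap
  · push Not at hε1
    refine ⟨3, fun K hK => ?_⟩
    have hK0 : 0 < K := by linarith
    have e : exceptions (Pool.Agent.N782.GN.SS 1) ε δ E A K = 0 := by
      unfold exceptions
      rw [card_eq_zero, filter_eq_empty_iff]
      intro k _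
      rw [not_not]
      intro N y z u v h1 _ _ _ _ h2 h3 h4
      exfalso
      have hN0 : 0 < N := (Real.rpow_pos_of_pos hK0 _).trans_le h1
      have h5 : K ^ (-ε) < K ^ (ε - 1) := Real.rpow_lt_rpow_of_exponent_lt (by linarith) (by linarith)
      have h6 := mul_lt_mul_of_pos_left h5 hN0
      linarith
    rw [e]
    have : 0 ≤ Real.log K := Real.log_nonneg (by linarith)
    push_cast
    positivity
  have hε' : 0 < ε / E := by positivity
  have hε'1 : ε / E ≤ 1 := by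
    rw [div_le_one hE0]
    linarith
  obtain ⟨L₀, h⟩ := eventually_atTop.1 (Pool.Agent.J6H16.E3.grid_e3 (ε / E) δ ⌈E⌉₊ A hε' hε'1 hδ)
  refine ⟨max L₀ 3, fun K hK => ?_⟩
  have hK3 : 3 ≤ K := (le_max_right _ _).trans hK
  have hK0 : 0 < K := by linarith
  have hK1 : 1 ≤ K := by linarith
  refine le_trans ?_ (h K ((le_max_left _ _).trans hK))
  unfold exceptions
  rw [Nat.cast_le]
  apply card_le_card_of_injOn (fun k : ℕ => (k : ℤ))
  · intro k hk
    rw [mem_coe, mem_filter, mem_Icc, Nat.le_floor_iff hK0.le] at hk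
    rw [mem_coe, mem_filter, mem_Icc, Int.le_floor]
    have h1 : (1 : ℤ) ≤ (k : ℤ) := by exact_mod_cast hk.1.1
    have h2 : (((k : ℤ)) : ℝ) ≤ K := by exact_mod_cast hk.1.2
    refine ⟨⟨h1, h2⟩, fun hg => hk.2 ?_⟩
    intro N y z u v hN1 hN2 hy hyz hz hu huv hv
    have hN0 : 0 < N := (Real.rpow_pos_of_pos hK0 _).trans_le hN1
    have hN1' : 1 ≤ N := (Real.one_le_rpow hK1 (by positivity)).trans hN1
    have hNE : N ^ (ε / E) ≤ K ^ ε := by
      calc N ^ (ε / E) ≤ (K ^ E) ^ (ε / E) := Real.rpow_le_rpow hN0.le hN2 hε'.le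
        _ = K ^ ε := by
          rw [← Real.rpow_mul hK0.le]
          congr 1
          field_simp
    have hle : ε / E ≤ ε := div_le_self hε.le hE
    have h3 := hg N y z u v ((Real.rpow_le_rpow_of_exponent_le hK1 (by linarith)).trans hN1)
      (hN2.trans (Real.rpow_le_rpow_of_exponent_le hK1 (Nat.le_ceil E))) hy hyz (by
        refine hz.trans (le_of_eq ?_)
        congr 1
        field_simp) (by
        refine le_trans ?_ hu
        rw [Real.rpow_add hN0, Real.rpow_one, Real.rpow_sub hK0, Real.rpow_one, mul_div_assoc]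
        apply mul_le_mul_of_nonneg_left _ hN0.le
        exact div_le_div_of_nonneg_right hNE hK0.le) huv (by
        refine hv.trans ?_
        rw [Real.rpow_sub hN0, Real.rpow_one, Real.rpow_neg hK0.le, ← div_eq_mul_inv]
        exact div_le_div_of_nonneg_left hN0.le (by positivity) hNE)
    rw [total_eq k N y z u v hN0.le (by omega)]
    have h4 : Pool.Agent.N782.GN.SS 1 * factor k * N * Real.log (z / y) * Real.log (v / u) =
        N * Pool.Agent.N782.GN.SS (k : ℤ) * (Real.log (z / y) * Real.log (v / u)) := by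
      rw [SS_eq k (by omega)]
      ring
    rw [h4]
    exact h3
  · intro a _ b _ hab
    simpa using hab

end Pool.Agent.Results.MP_7169d5_nt.ThreePrimeFormula
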